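import Mathlib

/-!
# Many solutions of the four Euclidean orbifold equations

Over an algebraically closed field of characteristic zero, each of the systems
`(u - e_i = y_i ^ N_i)` of type `(2,2,2)`, `(3,3)`, `(4,2)`, `(3,2)` has infinitely many solutions
with coordinates in one finitely generated field: the duplication (or tangent) map of the
corresponding curve strictly increases the absolute value at a place above `2` near infinity.
-/

set_option autoImplicit false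

namespace Pool.Agent.H734R3.LV

variable {k : Type*} [Field k]

/-- the solutions `u ∈ K` of `u - e_i = y_i ^ N_i`, `y_i ∈ K` -/
def Sol (K : Subfield k) {q : ℕ} (N : Fin q → ℕ) (e : Fin q → k) : Set k :=
  {u | u ∈ K ∧ ∀ i, ∃ y ∈ K, y ^ N i = u - e i}

/-- the system has infinitely many solutions over some finitely generated field containing `s` -/
def Euclid (k : Type*) [Field k] {q : ℕ} (N : Fin q → ℕ) : Prop :=
  ∀ (e : Fin q → k) (s : Finset k), ∃ s' : Finset k, s ⊆ s' ∧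
    (Sol (Subfield.closure (s' : Set k)) N e).Infinite

section steps

variable {Γ : Type*} [LinearOrderedCommGroupWithZero Γ] (v : Valuation k Γ)

theorem v_sub {u e : k} (h : v e < v u) : v (u - e) = v u := by
  rw [sub_eq_add_neg]
  exact v.map_add_eq_of_lt_left (by rwa [v.map_neg])

theorem v_add' {u e : k} (h : v e < v u) : v (e + u) = v u :=
  v.map_add_eq_of_lt_right h

theorem lt_div {g : Γ} (h0 : g ≠ 0) (h : g < 1) {a : Γ} (ha : a ≠ 0) : a < a / g := by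
  rw [div_eq_mul_inv]
  have h1 : 1 < g⁻¹ := (one_lt_inv₀ (zero_lt_iff.2 h0)).2 h
  calc a = a * 1 := (mul_one a).symm
    _ < a * g⁻¹ := mul_lt_mul_of_pos_left h1 (zero_lt_iff.2 ha)

/-- type `(2,2,2)` -/
theorem step222 (h20 : (2 : k) ≠ 0) (h2 : v 2 < 1) {e1 e2 e3 u y1 y2 y3 : k}
    (h1 : y1 ^ 2 = u - e1) (h3 : y2 ^ 2 = u - e2) (h4 : y3 ^ 2 = u - e3)
    (v1 : v e1 < v u) (v2 : v e2 < v u) (v3 : v e3 < v u) (K : Subfield k)
    (he1 : e1 ∈ K) (he2 : e2 ∈ K) (he3 : e3 ∈ K) (hu : u ∈ K) (hy1 : y1 ∈ K) (hy2 : y2 ∈ K)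
    (hy3 : y3 ∈ K) :
    ∃ u' ∈ K, v u < v u' ∧ (∃ y ∈ K, y ^ 2 = u' - e1) ∧ (∃ y ∈ K, y ^ 2 = u' - e2) ∧
      (∃ y ∈ K, y ^ 2 = u' - e3) := by
  have hvu : v u ≠ 0 := (lt_of_le_of_lt zero_le v1).ne'
  have hu1 := v_sub v v1
  have hu2 := v_sub v v2
  have hu3 := v_sub v v3
  have n1 : y1 ≠ 0 := by
    rintro rfl
    rw [← h1] at hu1
    simp at hu1
    exact hvu (by simp [← hu1])
  have n2 : y2 ≠ 0 := by
    rintro rfl
    rw [← h3] at hu2
    simp at hu2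
    exact hvu (by simp [← hu2])
  have n3 : y3 ≠ 0 := by
    rintro rfl
    rw [← h4] at hu3
    simp at hu3
    exact hvu (by simp [← hu3])
  set Y := y1 * y2 * y3 with hY
  have hY0 : Y ≠ 0 := mul_ne_zero (mul_ne_zero n1 n2) n3
  have hYsq : Y ^ 2 = (u - e1) * (u - e2) * (u - e3) := by
    rw [hY, mul_pow, mul_pow, h1, h3, h4]
  set z : k → k → k → k := fun a b c => ((u - a) ^ 2 - (a - b) * (a - c)) / (2 * Y) with hz
  have hYK : Y ∈ K := K.mul_mem (K.mul_mem hy1 hy2) hy3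
  have h2K : (2 : k) ∈ K := by
    have := natCast_mem K 2
    exact_mod_cast this
  have hzK : ∀ a b c, a ∈ K → b ∈ K → c ∈ K → z a b c ∈ K := by
    intro a b c ha hb hc
    exact K.div_mem (K.sub_mem (K.pow_mem (K.sub_mem hu ha) 2)
      (K.mul_mem (K.sub_mem ha hb) (K.sub_mem ha hc))) (K.mul_mem h2K hYK)
  have hz2 : z e2 e1 e3 ^ 2 = z e1 e2 e3 ^ 2 + e1 - e2 := by
    have : (2 * Y) ^ 2 = 4 * ((u - e1) * (u - e2) * (u - e3)) := by rw [mul_pow, hYsq]; ring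
    have h0 : 4 * ((u - e1) * (u - e2) * (u - e3)) ≠ 0 := by
      rw [← this]; exact pow_ne_zero _ (mul_ne_zero h20 hY0)
    simp only [hz, div_pow, this]
    have key : ((u - e2) ^ 2 - (e2 - e1) * (e2 - e3)) ^ 2 =
      ((u - e1) ^ 2 - (e1 - e2) * (e1 - e3)) ^ 2 + (e1 - e2) *
        (4 * ((u - e1) * (u - e2) * (u - e3))) := by ring
    rw [key, add_div, mul_div_cancel_right₀ _ h0]
    ring
  have hz3 : z e3 e1 e2 ^ 2 = z e1 e2 e3 ^ 2 + e1 - e3 := by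
    have : (2 * Y) ^ 2 = 4 * ((u - e1) * (u - e2) * (u - e3)) := by rw [mul_pow, hYsq]; ring
    have h0 : 4 * ((u - e1) * (u - e2) * (u - e3)) ≠ 0 := by
      rw [← this]; exact pow_ne_zero _ (mul_ne_zero h20 hY0)
    simp only [hz, div_pow, this]
    have key : ((u - e3) ^ 2 - (e3 - e1) * (e3 - e2)) ^ 2 =
      ((u - e1) ^ 2 - (e1 - e2) * (e1 - e3)) ^ 2 + (e1 - e3) *
        (4 * ((u - e1) * (u - e2) * (u - e3))) := by ring
    rw [key, add_div, mul_div_cancel_right₀ _ h0]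
    ring
  have v20 : v 2 ≠ 0 := (Valuation.ne_zero_iff v).2 h20
  have hdiff : ∀ a b : k, v a < v u → v b < v u → v (a - b) < v u := fun a b ha hb =>
    lt_of_le_of_lt (v.map_sub a b) (max_lt ha hb)
  have hvz : v (z e1 e2 e3 ^ 2) = v u / v 2 ^ 2 := by
    have hn : v ((u - e1) ^ 2 - (e1 - e2) * (e1 - e3)) = v u ^ 2 := by
      rw [v_sub v]
      · rw [map_pow, hu1]
      · rw [map_mul, map_pow, hu1, pow_two]
        exact mul_lt_mul'' (hdiff _ _ v1 v2) (hdiff _ _ v1 v3) zero_le zero_le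
    have hd : v (2 * Y) ^ 2 = v 2 ^ 2 * v u ^ 3 := by
      rw [map_mul, mul_pow, ← map_pow v Y, hYsq, map_mul, map_mul, hu1, hu2, hu3, pow_succ (v u) 2,
        pow_two (v u)]
    rw [map_pow]
    simp only [hz]
    rw [map_div₀, div_pow, hn, hd]
    field_simp
  have hlt : v u < v u / v 2 ^ 2 := lt_div (pow_ne_zero _ v20) (pow_lt_one₀ zero_le h2 two_ne_zero) hvu
  refine ⟨e1 + z e1 e2 e3 ^ 2, K.add_mem he1 (K.pow_mem (hzK _ _ _ he1 he2 he3) 2), ?_,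
    ⟨z e1 e2 e3, hzK _ _ _ he1 he2 he3, by ring⟩,
    ⟨z e2 e1 e3, hzK _ _ _ he2 he1 he3, by rw [hz2]; ring⟩,
    ⟨z e3 e1 e2, hzK _ _ _ he3 he1 he2, by rw [hz3]; ring⟩⟩
  rw [v_add' v, hvz]
  · exact hlt
  · rw [hvz]
    exact v1.trans hlt

theorem v_eight {c u : k} (h2 : v 2 < 1) (h : v c < v u) (n : ℕ) : v (2 ^ n * c) < v u := by
  rw [map_mul, map_pow]
  calc v 2 ^ n * v c ≤ 1 * v c := mul_le_mul_left (pow_le_one₀ zero_le h2.le) _
    _ = v c := one_mul _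
    _ < v u := h

/-- type `(3,3)` -/
theorem step33 (h20 : (2 : k) ≠ 0) (h2 : v 2 < 1) {e1 e2 u y z : k}
    (h1 : y ^ 3 = u - e1) (h3 : z ^ 3 = u - e2)
    (v1 : v e1 < v u) (v2 : v e2 < v u) (vc : v (e2 - e1) < v (2 * u)) (K : Subfield k)
    (he1 : e1 ∈ K) (he2 : e2 ∈ K) (hy : y ∈ K) (hz : z ∈ K) :
    ∃ u' ∈ K, v u < v u' ∧ (∃ y ∈ K, y ^ 3 = u' - e1) ∧ (∃ y ∈ K, y ^ 3 = u' - e2) := by
  have hvu : v u ≠ 0 := (lt_of_le_of_lt zero_le v1).ne'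
  have hu1 := v_sub v v1
  have v20 : v 2 ≠ 0 := (Valuation.ne_zero_iff v).2 h20
  have h2K : (2 : k) ∈ K := by
    have := natCast_mem K 2
    exact_mod_cast this
  obtain ⟨c, hc⟩ : ∃ c, c = e2 - e1 := ⟨_, rfl⟩
  rw [← hc] at vc
  obtain ⟨A, hA⟩ : ∃ A, A = y ^ 3 := ⟨_, rfl⟩
  have hcz : z ^ 3 = A - c := by rw [hA, h1, h3, hc]; ring
  have hvA : v A = v u := by rw [hA, h1, hu1]
  have hvcu : v c < v u := by
    rw [hc]
    exact lt_of_le_of_lt (v.map_sub _ _) (max_lt v2 v1)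
  have hD : v (2 * A - c) = v 2 * v u := by
    rw [v_sub v, map_mul, hvA]
    rwa [map_mul, hvA, ← map_mul]
  have hD0 : 2 * A - c ≠ 0 := by
    intro h
    rw [h, map_zero] at hD
    exact (mul_ne_zero v20 hvu) hD.symm
  have hN : v (2 * c - A) = v u := by
    rw [← v.map_neg, neg_sub, v_sub v, hvA]
    rw [hvA]
    have := v_eight v h2 hvcu 1
    simpa using this
  have hAK : A ∈ K := hA ▸ K.pow_mem hy 3
  have hcK : c ∈ K := hc ▸ K.sub_mem he2 he1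
  obtain ⟨Y, hY⟩ : ∃ Y, Y = y * (2 * c - A) / (2 * A - c) := ⟨_, rfl⟩
  obtain ⟨Z, hZ⟩ : ∃ Z, Z = z * (A + c) / (2 * A - c) := ⟨_, rfl⟩
  have hYK : Y ∈ K := by
    rw [hY]
    exact K.div_mem (K.mul_mem hy (K.sub_mem (K.mul_mem h2K hcK) hAK))
      (K.sub_mem (K.mul_mem h2K hAK) hcK)
  have hZK : Z ∈ K := by
    rw [hZ]
    exact K.div_mem (K.mul_mem hz (K.add_mem hAK hcK))
      (K.sub_mem (K.mul_mem h2K hAK) hcK)
  have hY3 : Y ^ 3 = A * (2 * c - A) ^ 3 / (2 * A - c) ^ 3 := by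
    rw [hY, div_pow, mul_pow, ← hA]
  have hZ3 : Z ^ 3 = (A - c) * (A + c) ^ 3 / (2 * A - c) ^ 3 := by
    rw [hZ, div_pow, mul_pow, hcz]
  have hYZ : (-Z) ^ 3 = Y ^ 3 - c := by
    have h0 : (2 * A - c) ^ 3 ≠ 0 := pow_ne_zero _ hD0
    have e : (-Z) ^ 3 = -Z ^ 3 := by ring
    have e2 : Y ^ 3 - c = (A * (2 * c - A) ^ 3 - c * (2 * A - c) ^ 3) / (2 * A - c) ^ 3 := by
      rw [hY3, sub_div, mul_div_assoc c, div_self h0, mul_one]
    rw [e, e2, hZ3, ← neg_div]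
    congr 1
    ring
  have hvY : v (Y ^ 3) = v u / v 2 ^ 3 := by
    rw [hY3, map_div₀, map_mul, map_pow, map_pow, hN, hD, hvA, mul_pow]
    field_simp
  have hlt : v u < v u / v 2 ^ 3 :=
    lt_div (pow_ne_zero _ v20) (pow_lt_one₀ zero_le h2 three_ne_zero) hvu
  refine ⟨e1 + Y ^ 3, K.add_mem he1 (K.pow_mem hYK 3), ?_, ⟨Y, hYK, by ring⟩,
    ⟨-Z, K.neg_mem hZK, by rw [hYZ, hc]; ring⟩⟩
  rw [v_add' v, hvY]
  · exact hlt
  · rw [hvY]
    exact v1.trans hlt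

/-- type `(4,2)` -/
theorem step42 (h20 : (2 : k) ≠ 0) (h2 : v 2 < 1) {e1 e2 u y z : k}
    (h1 : y ^ 4 = u - e1) (h3 : z ^ 2 = u - e2)
    (v1 : v e1 < v u) (v2 : v e2 < v u) (K : Subfield k)
    (he1 : e1 ∈ K) (he2 : e2 ∈ K) (hy : y ∈ K) (hz : z ∈ K) :
    ∃ u' ∈ K, v u < v u' ∧ (∃ y ∈ K, y ^ 4 = u' - e1) ∧ (∃ y ∈ K, y ^ 2 = u' - e2) := by
  have hvu : v u ≠ 0 := (lt_of_le_of_lt zero_le v1).ne'
  have hu1 := v_sub v v1
  have hu2 := v_sub v v2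
  have v20 : v 2 ≠ 0 := (Valuation.ne_zero_iff v).2 h20
  have h2K : (2 : k) ∈ K := by
    have := natCast_mem K 2
    exact_mod_cast this
  have h4K : (4 : k) ∈ K := by
    have := natCast_mem K 4
    exact_mod_cast this
  have h6K : (6 : k) ∈ K := by
    have := natCast_mem K 6
    exact_mod_cast this
  obtain ⟨c, hc⟩ : ∃ c, c = e1 - e2 := ⟨_, rfl⟩
  obtain ⟨A, hA⟩ : ∃ A, A = y ^ 4 := ⟨_, rfl⟩
  have hcz : z ^ 2 = A + c := by rw [hA, h1, h3, hc]; ring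
  have hvA : v A = v u := by rw [hA, h1, hu1]
  have hvz : v (A + c) = v u := by rw [← hcz, h3, hu2]
  have hA0 : A ≠ 0 := by
    rintro rfl
    simp at hvA
    exact hvu hvA.symm
  have hB0 : A + c ≠ 0 := by
    intro h
    rw [h] at hvz
    simp at hvz
    exact hvu hvz.symm
  have n1 : y ≠ 0 := by
    rintro rfl
    exact hA0 (by rw [hA]; simp)
  have n2 : z ≠ 0 := by
    rintro rfl
    exact hB0 (by rw [← hcz]; simp)
  have hvcu : v c < v u := by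
    rw [hc]
    exact lt_of_le_of_lt (v.map_sub _ _) (max_lt v1 v2)
  have hAK : A ∈ K := hA ▸ K.pow_mem hy 4
  have hcK : c ∈ K := hc ▸ K.sub_mem he1 he2
  obtain ⟨Y, hY⟩ : ∃ Y, Y = (A - c) / (2 * (y * z)) := ⟨_, rfl⟩
  obtain ⟨Z, hZ⟩ : ∃ Z, Z = (A ^ 2 + 6 * c * A + c ^ 2) / (4 * (y * z) ^ 2) := ⟨_, rfl⟩
  have hYK : Y ∈ K := by
    rw [hY]
    exact K.div_mem (K.sub_mem hAK hcK) (K.mul_mem h2K (K.mul_mem hy hz))
  have hZK : Z ∈ K := by
    rw [hZ]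
    exact K.div_mem (K.add_mem (K.add_mem (K.pow_mem hAK 2) (K.mul_mem (K.mul_mem h6K hcK) hAK))
      (K.pow_mem hcK 2)) (K.mul_mem h4K (K.pow_mem (K.mul_mem hy hz) 2))
  have hyz4 : (y * z) ^ 4 = A * (A + c) ^ 2 := by
    rw [mul_pow, ← hA, ← hcz]
    ring
  have h160 : (16 : k) ≠ 0 := by
    have : (16 : k) = 2 ^ 4 := by norm_num
    rw [this]
    exact pow_ne_zero _ h20
  have hY4 : Y ^ 4 = (A - c) ^ 4 / (16 * (A * (A + c) ^ 2)) := by
    rw [hY, div_pow, mul_pow, hyz4]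
    norm_num
  have hZ2 : Z ^ 2 = (A ^ 2 + 6 * c * A + c ^ 2) ^ 2 / (16 * (A * (A + c) ^ 2)) := by
    rw [hZ, div_pow, mul_pow, ← pow_mul, hyz4]
    norm_num
  have hYZ : Z ^ 2 = Y ^ 4 + c := by
    rw [hZ2, hY4]
    field_simp
    ring
  have hvY : v (Y ^ 4) = v u / v 2 ^ 4 := by
    have h16 : v (16 : k) = v 2 ^ 4 := by
      rw [← map_pow]
      norm_num
    rw [hY4, map_div₀, map_mul, map_mul, map_pow, map_pow, hvA, hvz, h16, v_sub v (by rwa [hvA]),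
      hvA]
    field_simp
  have hlt : v u < v u / v 2 ^ 4 :=
    lt_div (pow_ne_zero _ v20) (pow_lt_one₀ zero_le h2 four_ne_zero) hvu
  refine ⟨e1 + Y ^ 4, K.add_mem he1 (K.pow_mem hYK 4), ?_, ⟨Y, hYK, by ring⟩,
    ⟨Z, hZK, by rw [hYZ, hc]; ring⟩⟩
  rw [v_add' v, hvY]
  · exact hlt
  · rw [hvY]
    exact v1.trans hlt

/-- type `(3,2)` -/
theorem step32 (h20 : (2 : k) ≠ 0) (h2 : v 2 < 1) {e1 e2 u y z : k}
    (h1 : y ^ 3 = u - e1) (h3 : z ^ 2 = u - e2)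
    (v1 : v e1 < v u) (v2 : v e2 < v u) (K : Subfield k)
    (he1 : e1 ∈ K) (he2 : e2 ∈ K) (hy : y ∈ K) (hz : z ∈ K) :
    ∃ u' ∈ K, v u < v u' ∧ (∃ y ∈ K, y ^ 3 = u' - e1) ∧ (∃ y ∈ K, y ^ 2 = u' - e2) := by
  have hvu : v u ≠ 0 := (lt_of_le_of_lt zero_le v1).ne'
  have hu1 := v_sub v v1
  have hu2 := v_sub v v2
  have v20 : v 2 ≠ 0 := (Valuation.ne_zero_iff v).2 h20
  have hnK : ∀ n : ℕ, (n : k) ∈ K := fun n => natCast_mem K n
  obtain ⟨c, hc⟩ : ∃ c, c = e1 - e2 := ⟨_, rfl⟩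
  obtain ⟨A, hA⟩ : ∃ A, A = y ^ 3 := ⟨_, rfl⟩
  have hcz : z ^ 2 = A + c := by rw [hA, h1, h3, hc]; ring
  have hvA : v A = v u := by rw [hA, h1, hu1]
  have hvz : v (A + c) = v u := by rw [← hcz, h3, hu2]
  have hB0 : A + c ≠ 0 := by
    intro h
    rw [h] at hvz
    simp at hvz
    exact hvu hvz.symm
  have n2 : z ≠ 0 := by
    rintro rfl
    exact hB0 (by rw [← hcz]; simp)
  have hvcu : v c < v u := by
    rw [hc]
    exact lt_of_le_of_lt (v.map_sub _ _) (max_lt v1 v2)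
  have hAK : A ∈ K := hA ▸ K.pow_mem hy 3
  have hcK : c ∈ K := hc ▸ K.sub_mem he1 he2
  obtain ⟨Y, hY⟩ : ∃ Y, Y = y * (A - 8 * c) / (4 * z ^ 2) := ⟨_, rfl⟩
  obtain ⟨Z, hZ⟩ : ∃ Z, Z = (A ^ 2 + 20 * c * A - 8 * c ^ 2) / (8 * z ^ 3) := ⟨_, rfl⟩
  have hYK : Y ∈ K := by
    rw [hY]
    exact K.div_mem (K.mul_mem hy (K.sub_mem hAK (K.mul_mem (by exact_mod_cast hnK 8) hcK)))
      (K.mul_mem (by exact_mod_cast hnK 4) (K.pow_mem hz 2))
  have hZK : Z ∈ K := by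
    rw [hZ]
    exact K.div_mem (K.sub_mem (K.add_mem (K.pow_mem hAK 2)
      (K.mul_mem (K.mul_mem (by exact_mod_cast hnK 20) hcK) hAK))
      (K.mul_mem (by exact_mod_cast hnK 8) (K.pow_mem hcK 2)))
      (K.mul_mem (by exact_mod_cast hnK 8) (K.pow_mem hz 3))
  have hz6 : z ^ 6 = (A + c) ^ 3 := by
    rw [← hcz]
    ring
  have h640 : (64 : k) ≠ 0 := by
    have : (64 : k) = 2 ^ 6 := by norm_num
    rw [this]
    exact pow_ne_zero _ h20
  have hY3 : Y ^ 3 = A * (A - 8 * c) ^ 3 / (64 * (A + c) ^ 3) := by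
    rw [hY, div_pow, mul_pow, mul_pow, ← hA, ← pow_mul, hz6]
    norm_num
  have hZ2 : Z ^ 2 = (A ^ 2 + 20 * c * A - 8 * c ^ 2) ^ 2 / (64 * (A + c) ^ 3) := by
    rw [hZ, div_pow, mul_pow, ← pow_mul, hz6]
    norm_num
  have hYZ : Z ^ 2 = Y ^ 3 + c := by
    rw [hZ2, hY3]
    field_simp
    ring
  have hvY : v (Y ^ 3) = v u / v 2 ^ 6 := by
    have h64 : v (64 : k) = v 2 ^ 6 := by
      rw [← map_pow]
      norm_num
    have h8 : v (A - 8 * c) = v u := by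
      rw [v_sub v, hvA]
      have := v_eight v h2 hvcu 3
      rw [hvA]
      have e : (2 : k) ^ 3 * c = 8 * c := by norm_num
      rwa [e] at this
    rw [hY3, map_div₀, map_mul, map_mul, map_pow, map_pow, hvA, hvz, h64, h8]
    field_simp
  have hlt : v u < v u / v 2 ^ 6 :=
    lt_div (pow_ne_zero _ v20) (pow_lt_one₀ zero_le h2 (by norm_num)) hvu
  refine ⟨e1 + Y ^ 3, K.add_mem he1 (K.pow_mem hYK 3), ?_, ⟨Y, hYK, by ring⟩,
    ⟨Z, hZK, by rw [hYZ, hc]; ring⟩⟩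
  rw [v_add' v, hvY]
  · exact hlt
  · rw [hvY]
    exact v1.trans hlt

end steps

/-- a place above `2` -/
theorem exists_val (k : Type*) [Field k] [CharZero k] :
    ∃ B : ValuationSubring k, B.valuation 2 < 1 := by
  let A : Subring k := (Int.castRingHom k).range
  let I : Ideal A := Ideal.span {⟨(2 : k), ⟨2, by simp⟩⟩}
  have hI : I ≠ ⊤ := by
    intro h
    have h1 : (1 : A) ∈ I := by rw [h]; trivial
    obtain ⟨a, ha⟩ := Ideal.mem_span_singleton'.1 h1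
    obtain ⟨n, hn⟩ := a.2
    have h2 := congrArg (fun x : A => (x : k)) ha
    simp only [Subring.coe_mul, Subring.coe_one, ← hn] at h2
    have h3 : ((n * 2 : ℤ) : k) = ((1 : ℤ) : k) := by
      push_cast
      exact h2
    have h4 : n * 2 = 1 := by exact_mod_cast h3
    omega
  obtain ⟨B, -, hB⟩ := Ideal.image_subset_nonunits_valuationSubring I hI
  refine ⟨B, B.mem_nonunits_iff.1 (hB ⟨_, Ideal.subset_span rfl, rfl⟩)⟩

theorem exists_big {Γ : Type*} [LinearOrderedCommGroupWithZero Γ] (v : Valuation k Γ)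
    (h20 : (2 : k) ≠ 0) (h2 : v 2 < 1) (s : Finset k) : ∃ u : k, ∀ a ∈ s, v a < v u := by
  classical
  obtain ⟨g, hg, hmax⟩ := Finset.exists_max_image (insert 1 s) v (Finset.insert_nonempty _ _)
  have h1 : v 1 ≤ v g := hmax 1 (Finset.mem_insert_self _ _)
  have hg0 : v g ≠ 0 := by
    intro h
    rw [h, map_one] at h1
    exact absurd h1 (not_le.2 zero_lt_one)
  refine ⟨g / 2, fun a ha => ?_⟩
  rw [map_div₀]
  exact lt_of_le_of_lt (hmax a (Finset.mem_insert_of_mem ha))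
    (lt_div ((Valuation.ne_zero_iff v).2 h20) h2 hg0)

/-- infinitely many solutions from a step that increases the absolute value -/
theorem euclid_of_step [IsAlgClosed k] [CharZero k] {q : ℕ} (N : Fin q → ℕ) (hN : ∀ i, N i ≠ 0)
    (hstep : ∀ (B : ValuationSubring k), B.valuation 2 < 1 → ∀ (e : Fin q → k), ∃ b : Finset k,
      ∀ (K : Subfield k), (∀ i, e i ∈ K) → ∀ u ∈ Sol K N e, (∀ a ∈ b, B.valuation a < B.valuation u) →
        ∃ u' ∈ Sol K N e, B.valuation u < B.valuation u') : Euclid k N := by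
  classical
  intro e s
  obtain ⟨B, hB⟩ := exists_val k
  obtain ⟨b, hb⟩ := hstep B hB e
  obtain ⟨u, hu⟩ := exists_big B.valuation two_ne_zero hB b
  have hy : ∀ i, ∃ y : k, y ^ N i = u - e i := fun i =>
    IsAlgClosed.exists_pow_nat_eq _ (Nat.pos_of_ne_zero (hN i))
  choose y hy using hy
  refine ⟨s ∪ Finset.univ.image e ∪ {u} ∪ Finset.univ.image y, ?_, ?_⟩
  · intro a ha
    simp [ha]
  · set K := Subfield.closure ((s ∪ Finset.univ.image e ∪ {u} ∪ Finset.univ.image y : Finset k) :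
      Set k) with hK
    have heK : ∀ i, e i ∈ K := fun i => Subfield.subset_closure (by simp)
    have huK : u ∈ K := Subfield.subset_closure (by simp)
    have hyK : ∀ i, y i ∈ K := fun i => Subfield.subset_closure (by simp)
    have hne : u ∈ {u | u ∈ Sol K N e ∧ ∀ a ∈ b, B.valuation a < B.valuation u} :=
      ⟨⟨huK, fun i => ⟨y i, hyK i, hy i⟩⟩, hu⟩
    intro hfin
    have hfin2 : {u | u ∈ Sol K N e ∧ ∀ a ∈ b, B.valuation a < B.valuation u}.Finite :=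
      hfin.subset fun x hx => hx.1
    obtain ⟨w, hw, hmax⟩ := Set.exists_max_image _ (fun x => B.valuation x) hfin2 ⟨u, hne⟩
    obtain ⟨w', hw', hlt⟩ := hb K heK w hw.1 hw.2
    have := hmax w' ⟨hw', fun a ha => (hw.2 a ha).trans hlt⟩
    exact absurd hlt (not_lt.2 this)

variable [IsAlgClosed k] [CharZero k]

theorem euclid222 : Euclid k ![2, 2, 2] := by
  classical
  refine euclid_of_step _ (by intro i; fin_cases i <;> simp) ?_
  intro B hB e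
  refine ⟨{e 0, e 1, e 2}, fun K he u hu hb => ?_⟩
  obtain ⟨huK, hy⟩ := hu
  obtain ⟨y1, hy1, h1⟩ := hy 0
  obtain ⟨y2, hy2, h2⟩ := hy 1
  obtain ⟨y3, hy3, h3⟩ := hy 2
  obtain ⟨u', hu', hlt, ⟨a1, ha1, g1⟩, ⟨a2, ha2, g2⟩, ⟨a3, ha3, g3⟩⟩ :=
    step222 B.valuation two_ne_zero hB h1 h2 h3 (hb _ (by simp)) (hb _ (by simp))
      (hb _ (by simp)) K (he 0) (he 1) (he 2) huK hy1 hy2 hy3
  refine ⟨u', ⟨hu', fun i => ?_⟩, hlt⟩
  fin_cases i
  · exact ⟨a1, ha1, g1⟩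
  · exact ⟨a2, ha2, g2⟩
  · exact ⟨a3, ha3, g3⟩

theorem euclid33 : Euclid k ![3, 3] := by
  classical
  refine euclid_of_step _ (by intro i; fin_cases i <;> simp) ?_
  intro B hB e
  refine ⟨{e 0, e 1, (e 1 - e 0) / 2}, fun K he u hu hb => ?_⟩
  obtain ⟨huK, hy⟩ := hu
  obtain ⟨y1, hy1, h1⟩ := hy 0
  obtain ⟨y2, hy2, h2⟩ := hy 1
  have hc : B.valuation (e 1 - e 0) < B.valuation (2 * u) := by
    have := hb ((e 1 - e 0) / 2) (by simp)
    have h20 : B.valuation (2 : k) ≠ 0 := (Valuation.ne_zero_iff _).2 two_ne_zero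
    rw [map_div₀, div_lt_iff₀ (zero_lt_iff.2 h20)] at this
    rw [map_mul, mul_comm]
    exact this
  obtain ⟨u', hu', hlt, ⟨a1, ha1, g1⟩, ⟨a2, ha2, g2⟩⟩ :=
    step33 B.valuation two_ne_zero hB h1 h2 (hb _ (by simp)) (hb _ (by simp)) hc
      K (he 0) (he 1) hy1 hy2
  refine ⟨u', ⟨hu', fun i => ?_⟩, hlt⟩
  fin_cases i
  · exact ⟨a1, ha1, g1⟩
  · exact ⟨a2, ha2, g2⟩

theorem euclid42 : Euclid k ![4, 2] := by
  classical
  refine euclid_of_step _ (by intro i; fin_cases i <;> simp) ?_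
  intro B hB e
  refine ⟨{e 0, e 1}, fun K he u hu hb => ?_⟩
  obtain ⟨huK, hy⟩ := hu
  obtain ⟨y1, hy1, h1⟩ := hy 0
  obtain ⟨y2, hy2, h2⟩ := hy 1
  obtain ⟨u', hu', hlt, ⟨a1, ha1, g1⟩, ⟨a2, ha2, g2⟩⟩ :=
    step42 B.valuation two_ne_zero hB h1 h2 (hb _ (by simp)) (hb _ (by simp))
      K (he 0) (he 1) hy1 hy2
  refine ⟨u', ⟨hu', fun i => ?_⟩, hlt⟩
  fin_cases i
  · exact ⟨a1, ha1, g1⟩
  · exact ⟨a2, ha2, g2⟩

theorem euclid32 : Euclid k ![3, 2] := by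
  classical
  refine euclid_of_step _ (by intro i; fin_cases i <;> simp) ?_
  intro B hB e
  refine ⟨{e 0, e 1}, fun K he u hu hb => ?_⟩
  obtain ⟨huK, hy⟩ := hu
  obtain ⟨y1, hy1, h1⟩ := hy 0
  obtain ⟨y2, hy2, h2⟩ := hy 1
  obtain ⟨u', hu', hlt, ⟨a1, ha1, g1⟩, ⟨a2, ha2, g2⟩⟩ :=
    step32 B.valuation two_ne_zero hB h1 h2 (hb _ (by simp)) (hb _ (by simp))
      K (he 0) (he 1) hy1 hy2
  refine ⟨u', ⟨hu', fun i => ?_⟩, hlt⟩
  fin_cases i
  · exact ⟨a1, ha1, g1⟩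
  · exact ⟨a2, ha2, g2⟩

end Pool.Agent.H734R3.LV
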