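import Mathlib
import Pool.Agent.H952R2.Sextic.CommonZero
import Pool.Agent.H734R3.LV.Step

/-!
# Lines with Euclidean orbifold structure

Through a point `p` outside the branch divisor there is a line on which the branch equations have
a prescribed pattern of multiplicities, as soon as there are fewer equations than unknowns.
-/

set_option autoImplicit false

namespace Pool.Agent.H734R3.LV

open MvPolynomial

variable {k : Type*} [Field k]

/-- restriction of `G` to the line `p + t v`, as a polynomial in `t` over a ring `R` -/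
noncomputable def restr {σ : Type*} {R : Type*} [CommRing R] [Algebra k R] (G : MvPolynomial σ k)
    (p v : σ → R) : Polynomial R :=
  aeval (fun i => Polynomial.C (p i) + Polynomial.X * Polynomial.C (v i)) G

theorem restr_map {σ : Type*} {R S : Type*} [CommRing R] [Algebra k R] [CommRing S] [Algebra k S]
    (φ : R →ₐ[k] S) (G : MvPolynomial σ k) (p v : σ → R) :
    (restr G p v).map (φ : R →+* S) = restr G (fun i => φ (p i)) (fun i => φ (v i)) := by
  have h : (Polynomial.mapAlgHom φ).comp (aeval (fun i => Polynomial.C (p i) +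
      Polynomial.X * Polynomial.C (v i))) =
      (aeval (fun i => Polynomial.C (φ (p i)) + Polynomial.X * Polynomial.C (φ (v i))) :
        MvPolynomial σ k →ₐ[k] Polynomial S) := by
    apply MvPolynomial.algHom_ext
    intro i
    simp
  have := DFunLike.congr_fun h G
  simpa [restr] using this

theorem restr_eval {σ : Type*} (G : MvPolynomial σ k) (p v : σ → k) (t : k) :
    (restr G p v).eval t = eval (fun i => p i + t * v i) G := by
  have h : (Polynomial.aeval t).comp (aeval (fun i => Polynomial.C (p i) +
      Polynomial.X * Polynomial.C (v i)) : MvPolynomial σ k →ₐ[k] Polynomial k) =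
      (aeval (fun i => p i + t * v i) : MvPolynomial σ k →ₐ[k] k) := by
    apply MvPolynomial.algHom_ext
    intro i
    simp
    ring
  have := DFunLike.congr_fun h G
  simpa [restr, aeval_eq_eval] using this

theorem restr_degree {σ : Type*} {G : MvPolynomial σ k} (p v : σ → k) :
    (restr G p v).natDegree ≤ G.totalDegree := by
  rw [restr, aeval_def, eval₂_eq]
  refine Polynomial.natDegree_sum_le_of_forall_le _ _ fun m hm => ?_
  have hd : ∑ i ∈ m.support, m i ≤ G.totalDegree := le_totalDegree hm
  refine (Polynomial.natDegree_mul_le).trans ?_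
  have h1 : (algebraMap k (Polynomial k) (coeff m G)).natDegree = 0 := by
    rw [Polynomial.algebraMap_eq, Polynomial.natDegree_C]
  rw [h1, zero_add]
  refine le_trans ?_ hd
  refine (Polynomial.natDegree_prod_le _ _).trans (Finset.sum_le_sum fun i _ => ?_)
  refine (Polynomial.natDegree_pow_le).trans ?_
  have : (Polynomial.C (p i) + Polynomial.X * Polynomial.C (v i)).natDegree ≤ 1 := by
    compute_degree
  nlinarith

variable [IsAlgClosed k] [CharZero k]

/-- The main algebraic lemma. -/
theorem exists_line {n r : ℕ} (f : Fin r → MvPolynomial (Fin n) k) {σ : Type} [Fintype σ]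
    (own : σ → Fin r) (mult : σ → ℕ) (hmult : ∀ s, 0 < mult s)
    (hdeg : ∀ i, (f i).totalDegree ≤ ∑ s with own s = i, mult s)
    (hcard : ∑ s, mult s < n + Fintype.card σ) (p : Fin n → k) (hp : ∀ i, eval p (f i) ≠ 0) :
    ∃ v : Fin n → k, v ≠ 0 ∧ ∃ c : σ → k, ∀ i t,
      eval (fun j => p j + t * v j) (f i) =
        eval p (f i) * ∏ s with own s = i, (1 + c s * t) ^ mult s := by
  classical
  let ι := Fin n ⊕ σ
  let R := MvPolynomial ι k
  let pR : Fin n → R := fun i => C (p i)
  let vR : Fin n → R := fun i => X (Sum.inl i)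
  let D : Fin r → ℕ := fun i => ∑ s with own s = i, mult s
  let PF : Fin r → Polynomial R := fun i => restr (f i) pR vR - Polynomial.C (C (eval p (f i))) *
    ∏ s with own s = i, (1 + Polynomial.C (X (Sum.inr s)) * Polynomial.X) ^ mult s
  let κ := Σ i : Fin r, Fin (D i)
  let F : κ → R := fun a => (PF a.1).coeff (a.2 + 1)
  have evPF : ∀ (x : ι → k) (i : Fin r), (PF i).map (aeval x : R →ₐ[k] k).toRingHom =
      restr (f i) p (fun i => x (Sum.inl i)) - Polynomial.C (eval p (f i)) *
        ∏ s with own s = i, (1 + Polynomial.C (x (Sum.inr s)) * Polynomial.X) ^ mult s := by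
    intro x i
    have := restr_map (aeval x : R →ₐ[k] k) (f i) pR vR
    have h2 : (restr (f i) pR vR).map (aeval x : R →ₐ[k] k).toRingHom =
      restr (f i) p (fun i => x (Sum.inl i)) := by simpa [pR, vR] using this
    simp only [PF, Polynomial.map_sub, h2, Polynomial.map_mul, Polynomial.map_prod,
      Polynomial.map_pow, Polynomial.map_add, Polynomial.map_one, Polynomial.map_C,
      Polynomial.map_X]
    simp
  have evF : ∀ (x : ι → k) (i : Fin r) (j : ℕ), eval x ((PF i).coeff j) =
      (restr (f i) p (fun i => x (Sum.inl i)) - Polynomial.C (eval p (f i)) *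
        ∏ s with own s = i, (1 + Polynomial.C (x (Sum.inr s)) * Polynomial.X) ^ mult s).coeff j := by
    intro x i j
    rw [← evPF x i, Polynomial.coeff_map]
    simp [aeval_eq_eval]
  have restr0 : ∀ (H : MvPolynomial (Fin n) k), restr H p (fun _ => (0 : k)) =
      Polynomial.C (eval p H) := by
    intro H
    apply Polynomial.funext
    intro t
    rw [restr_eval, Polynomial.eval_C]
    congr 2
    funext i
    ring
  have hcard' : Fintype.card κ < Fintype.card ι := by
    have : ∑ i, D i = ∑ s, mult s := by
      simp only [D]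
      exact Finset.sum_fiberwise _ _ _
    simp only [κ, ι, Fintype.card_sum, Fintype.card_sigma, Fintype.card_fin]
    omega
  have h0 : ∀ a, eval 0 (F a) = 0 := by
    rintro ⟨i, j⟩
    simp only [F]
    rw [evF]
    have : (fun i => (0 : ι → k) (Sum.inl i)) = fun _ : Fin n => (0 : k) := rfl
    rw [this, restr0]
    simp
  obtain ⟨x, hx0, hx⟩ := Pool.Agent.H952R2.Sextic.exists_common_zero hcard' F h0
  set v : Fin n → k := fun i => x (Sum.inl i) with hv
  set c : σ → k := fun s => x (Sum.inr s) with hc
  have hQ : ∀ i, restr (f i) p v = Polynomial.C (eval p (f i)) *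
        ∏ s with own s = i, (1 + Polynomial.C (c s) * Polynomial.X) ^ mult s := by
    intro i
    have hQdeg : (Polynomial.C (eval p (f i)) *
        ∏ s with own s = i, (1 + Polynomial.C (c s) * Polynomial.X) ^ mult s).natDegree ≤ D i := by
      refine (Polynomial.natDegree_C_mul_le _ _).trans ?_
      refine (Polynomial.natDegree_prod_le _ _).trans (Finset.sum_le_sum fun s _ => ?_)
      refine (Polynomial.natDegree_pow_le).trans ?_
      have h3 : (1 + Polynomial.C (c s) * Polynomial.X).natDegree ≤ 1 := by compute_degree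
      nlinarith
    rw [← sub_eq_zero]
    ext j
    rw [Polynomial.coeff_zero]
    by_cases hj : j ≤ D i
    · cases j with
      | zero =>
        rw [Polynomial.coeff_zero_eq_eval_zero, Polynomial.eval_sub, restr_eval,
          Polynomial.eval_mul, Polynomial.eval_prod]
        simp
      | succ j =>
        have := hx ⟨i, ⟨j, by omega⟩⟩
        simp only [F] at this
        rwa [evF] at this
    · apply Polynomial.coeff_eq_zero_of_natDegree_lt
      refine lt_of_le_of_lt (Polynomial.natDegree_sub_le _ _) ?_
      exact lt_of_le_of_lt (max_le ((restr_degree p v).trans (hdeg i)) hQdeg) (not_le.1 hj)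
  have hev : ∀ i t, eval (fun j => p j + t * v j) (f i) =
        eval p (f i) * ∏ s with own s = i, (1 + c s * t) ^ mult s := by
    intro i t
    rw [← restr_eval, hQ i, Polynomial.eval_mul, Polynomial.eval_C, Polynomial.eval_prod]
    simp
  refine ⟨v, ?_, c, hev⟩
  intro h
  have hc0 : ∀ s, c s = 0 := by
    intro s
    by_contra hs
    have := hev (own s) (-1 / c s)
    have e1 : (fun j => p j + -1 / c s * v j) = p := by
      funext j
      rw [h]
      simp
    rw [e1] at this
    have e2 : ∏ s' with own s' = own s, (1 + c s' * (-1 / c s)) ^ mult s' = 0 := by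
      apply Finset.prod_eq_zero (i := s) (by simp)
      have : 1 + c s * (-1 / c s) = 0 := by field_simp; ring
      rw [this, zero_pow (hmult s).ne']
    rw [e2, mul_zero] at this
    exact hp _ this
  apply hx0
  funext a
  rcases a with a | a
  · exact congrFun h a
  · exact hc0 a

/-- from the Euclidean systems to linear forms -/
theorem forms {q : ℕ} {N : Fin q → ℕ} (hN : ∀ i, N i ≠ 0) (hE : Euclid k N) (ca : k)
    (c : Fin q → k) (s : Finset k) : ∃ s' : Finset k, s ⊆ s' ∧
      {t | t ∈ Subfield.closure (s' : Set k) ∧ ∀ i, ∃ y ∈ Subfield.closure (s' : Set k),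
        1 + c i * t = (1 + ca * t) * y ^ N i}.Infinite := by
  classical
  by_cases hca : ca = 0
  · subst hca
    let e : Fin q → k := fun i => if c i = 0 then 0 else -(1 / c i)
    have hρ : ∀ i, ∃ ρ : k, ρ ^ N i = if c i = 0 then 1 else c i := fun i =>
      IsAlgClosed.exists_pow_nat_eq _ (Nat.pos_of_ne_zero (hN i))
    choose ρ hρ using hρ
    obtain ⟨s', hs', hinf⟩ := hE e (s ∪ Finset.univ.image ρ)
    refine ⟨s', fun a ha => hs' (by simp [ha]), hinf.mono ?_⟩
    rintro u ⟨hu, hy⟩
    refine ⟨hu, fun i => ?_⟩
    have hρK : ρ i ∈ Subfield.closure (s' : Set k) :=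
      Subfield.subset_closure (hs' (by simp))
    obtain ⟨y, hyK, hy⟩ := hy i
    by_cases hci : c i = 0
    · exact ⟨1, Subfield.one_mem _, by rw [hci]; simp⟩
    · refine ⟨ρ i * y, Subfield.mul_mem _ hρK hyK, ?_⟩
      rw [mul_pow, hy, hρ]
      simp only [e, if_neg hci]
      field_simp
      ring
  · let e : Fin q → k := fun i => if c i = ca then 0 else -(c i / (ca - c i))
    have hρ : ∀ i, ∃ ρ : k, ρ ^ N i = if c i = ca then 1 else (ca - c i) / ca := fun i =>
      IsAlgClosed.exists_pow_nat_eq _ (Nat.pos_of_ne_zero (hN i))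
    choose ρ hρ using hρ
    obtain ⟨s', hs', hinf⟩ := hE e (s ∪ Finset.univ.image ρ ∪ {ca})
    set K := Subfield.closure (s' : Set k) with hK
    have hcaK : ca ∈ K := Subfield.subset_closure (hs' (by simp))
    have hinf2 : (Sol K N e \ {0}).Infinite := hinf.diff (Set.finite_singleton 0)
    have hinj : Set.InjOn (fun u : k => (1 - u) / (ca * u)) (Sol K N e \ {0}) := by
      rintro u ⟨-, hu⟩ w ⟨-, hw⟩ h
      simp only [Set.mem_singleton_iff] at hu hw
      have h' : (1 - u) / (ca * u) = (1 - w) / (ca * w) := h
      field_simp at h'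
      linear_combination -h'
    refine ⟨s', fun a ha => hs' (by simp [ha]), (hinf2.image hinj).mono ?_⟩
    rintro t ⟨u, ⟨⟨huK, hy⟩, hu0⟩, rfl⟩
    simp only [Set.mem_singleton_iff] at hu0
    refine ⟨K.div_mem (K.sub_mem K.one_mem huK) (K.mul_mem hcaK huK), fun i => ?_⟩
    have hρK : ρ i ∈ K := Subfield.subset_closure (hs' (by simp))
    obtain ⟨y, hyK, hy⟩ := hy i
    have e1 : 1 + ca * ((1 - u) / (ca * u)) = 1 / u := by
      field_simp
      ring
    rw [e1]
    by_cases hci : c i = ca
    · refine ⟨1, K.one_mem, ?_⟩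
      rw [hci, e1]
      simp
    · refine ⟨ρ i * y, K.mul_mem hρK hyK, ?_⟩
      have hci' : ca - c i ≠ 0 := sub_ne_zero.2 (Ne.symm hci)
      rw [mul_pow, hy, hρ]
      simp only [e, if_neg hci]
      field_simp
      ring

end Pool.Agent.H734R3.LV
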