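import Mathlib
import Pool.Agent.H734R3.LV.Lines

/-!
# Lines whose preimage has infinitely many rational points
-/

set_option autoImplicit false

namespace Pool.Agent.H734R3.LV

open MvPolynomial

variable {k : Type*} [Field k]

/-- the slot of a root -/
def slot {J : Type} {q : ℕ} (b : Fin q → J) : J ⊕ Fin q → J := Sum.elim id b

theorem prod_slot {J : Type} [Fintype J] [DecidableEq J] {q : ℕ} {M : Type*} [CommMonoid M]
    (b : Fin q → J) (j : J) (g : J ⊕ Fin q → M) : ∏ s with slot b s = j, g s =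
      g (Sum.inl j) * ∏ a, (if b a = j then g (Sum.inr a) else 1) := by
  rw [Finset.prod_filter, Fintype.prod_sum_type]
  congr 1
  have : ∀ x : J, (if slot b (Sum.inl x) = j then g (Sum.inl x) else 1) =
      if x = j then g (Sum.inl x) else 1 := fun x => rfl
  rw [Finset.prod_congr rfl fun x _ => this x]
  simp

theorem sum_slot {J : Type} [Fintype J] [DecidableEq J] {q : ℕ} {M : Type*} [AddCommMonoid M]
    (b : Fin q → J) (j : J) (g : J ⊕ Fin q → M) : ∑ s with slot b s = j, g s =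
      g (Sum.inl j) + ∑ a, (if b a = j then g (Sum.inr a) else 0) :=
  prod_slot (M := Multiplicative M) b j g

theorem prod_own {r : ℕ} {J : Type} [Fintype J] [DecidableEq J] (π : J → Fin r) {q : ℕ}
    {M : Type*} [CommMonoid M] (b : Fin q → J)
    (g : J ⊕ Fin q → M) (i : Fin r) :
    ∏ s with π (slot b s) = i, g s =
      ∏ j : J with π j = i, ∏ s with slot b s = j, g s := by
  classical
  rw [← Finset.prod_fiberwise_of_maps_to (s := Finset.univ.filter fun s => π (slot b s) = i)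
    (t := Finset.univ.filter fun j : J => π j = i) (g := slot b)]
  · refine Finset.prod_congr rfl fun j hj => ?_
    apply Finset.prod_congr _ fun _ _ => rfl
    ext s
    simp only [Finset.mem_filter, Finset.mem_univ, true_and, and_iff_right_iff_imp]
    rintro rfl
    simpa using hj
  · intro s hs
    simpa using hs

/-- the good parameters on a line -/
def GoodT {n r : ℕ} (m : Fin r → ℕ) (f : Fin r → MvPolynomial (Fin n) k) (p v : Fin n → k)
    (K : Subfield k) : Set k :=
  {t | t ∈ K ∧ ∀ i, ∃ y ∈ K, y ^ m i = eval (fun j => p j + t * v j) (f i)}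

variable [IsAlgClosed k] [CharZero k]

/-- pattern with `q` additional roots -/
theorem good_of_pattern {n r q : ℕ} (m : Fin r → ℕ) (hm0 : ∀ i, m i ≠ 0)
    (f : Fin r → MvPolynomial (Fin n) k)
    (e : Fin r → ℕ) (hdeg : ∀ i, (f i).totalDegree ≤ m i * e i)
    (he : ∑ i, (m i - 1) * e i < n + q)
    (b : Fin q → Σ i : Fin r, Fin (e i)) (mult : (Σ i : Fin r, Fin (e i)) ⊕ Fin q → ℕ)
    (hmult : ∀ s, 0 < mult s)
    (hsum : ∀ j, mult (Sum.inl j) + ∑ a, (if b a = j then mult (Sum.inr a) else 0) = m j.1)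
    (hT : ∀ (c : (Σ i : Fin r, Fin (e i)) ⊕ Fin q → k) (s : Finset k), ∃ s' : Finset k, s ⊆ s' ∧
      {t | t ∈ Subfield.closure (s' : Set k) ∧ ∀ j, ∃ y ∈ Subfield.closure (s' : Set k),
        y ^ m j.1 = (1 + c (Sum.inl j) * t) ^ mult (Sum.inl j) *
          ∏ a, (if b a = j then (1 + c (Sum.inr a) * t) ^ mult (Sum.inr a) else 1)}.Infinite)
    (p : Fin n → k) (hp : ∀ i, eval p (f i) ≠ 0) (s : Finset k) :
    ∃ v : Fin n → k, v ≠ 0 ∧ ∃ s' : Finset k, s ⊆ s' ∧ (∀ i, v i ∈ s') ∧
      (GoodT m f p v (Subfield.closure (s' : Set k))).Infinite := by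
  classical
  let J := Σ i : Fin r, Fin (e i)
  let own : J ⊕ Fin q → Fin r := fun s => (slot b s).1
  have hcardfib : ∀ i, (Finset.univ.filter fun j : J => j.1 = i).card = e i := by
    intro i
    rw [Finset.card_filter, Fintype.sum_sigma, Finset.sum_eq_single i]
    · simp
    · intro b _ hb
      simp [hb]
    · simp
  have hown : ∀ i, ∑ s with own s = i, mult s = m i * e i := by
    intro i
    have h1 : ∑ s with own s = i, mult s = ∑ j : J with j.1 = i, ∑ s with slot b s = j, mult s :=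
      prod_own (fun j : J => j.1) (M := Multiplicative ℕ) b mult i
    have h2 : ∑ j : J with j.1 = i, ∑ s with slot b s = j, mult s = ∑ j : J with j.1 = i, m i := by
      refine Finset.sum_congr rfl fun j hj => ?_
      rw [sum_slot b j mult, hsum j]
      have : j.1 = i := by simpa using hj
      rw [this]
    rw [h1, h2, Finset.sum_const, hcardfib, smul_eq_mul, mul_comm]
  have htot : ∑ s, mult s = ∑ i, m i * e i := by
    rw [← Finset.sum_fiberwise Finset.univ own mult, Finset.sum_congr rfl fun i _ => hown i]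
  have hcard : ∑ s, mult s < n + Fintype.card (J ⊕ Fin q) := by
    rw [htot]
    simp only [J, Fintype.card_sum, Fintype.card_sigma, Fintype.card_fin]
    have h3 : ∑ i, m i * e i = ∑ i, (m i - 1) * e i + ∑ i, e i := by
      rw [← Finset.sum_add_distrib]
      refine Finset.sum_congr rfl fun i _ => ?_
      obtain ⟨m', hm'⟩ : ∃ m', m i = m' + 1 := ⟨m i - 1, by have := hm0 i; omega⟩
      rw [hm', Nat.add_sub_cancel]
      ring
    omega
  obtain ⟨v, hv, c, hc⟩ := exists_line f own mult hmult (fun i => (hdeg i).trans (hown i).ge)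
    hcard p hp
  have hρ : ∀ i, ∃ ρ : k, ρ ^ m i = eval p (f i) := fun i =>
    IsAlgClosed.exists_pow_nat_eq _ (Nat.pos_of_ne_zero (hm0 i))
  choose ρ hρ using hρ
  obtain ⟨s', hs', hinf⟩ := hT c (s ∪ Finset.univ.image v ∪ Finset.univ.image ρ)
  refine ⟨v, hv, s', fun a ha => hs' (by simp [ha]), fun i => hs' (by simp), hinf.mono ?_⟩
  rintro t ⟨htK, ht⟩
  refine ⟨htK, fun i => ?_⟩
  choose y hyK hy using ht
  refine ⟨ρ i * ∏ j : J with j.1 = i, y j, ?_, ?_⟩
  · exact Subfield.mul_mem _ (Subfield.subset_closure (hs' (by simp)))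
      (Subfield.prod_mem _ fun j _ => hyK j)
  · rw [mul_pow, hρ, hc, ← Finset.prod_pow]
    congr 1
    refine Eq.trans ?_ (prod_own (fun j : J => j.1) b
      (fun s => (1 + c s * t) ^ mult s) i).symm
    refine Finset.prod_congr rfl fun j hj => ?_
    have hji : j.1 = i := by simpa using hj
    rw [← hji, hy j, prod_slot]

theorem closure_infinite (s : Finset k) : ((Subfield.closure (s : Set k) : Subfield k) : Set k).Infinite := by
  refine (Set.infinite_range_of_injective (f := fun n : ℕ => (n : k)) Nat.cast_injective).mono ?_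
  rintro _ ⟨n, rfl⟩
  exact natCast_mem _ n

/-- constant branch equations -/
theorem good_const {n r : ℕ} (hn : 1 ≤ n) (m : Fin r → ℕ) (hm0 : ∀ i, m i ≠ 0)
    (f : Fin r → MvPolynomial (Fin n) k)
    (hdeg : ∀ i, (f i).totalDegree = 0) (p : Fin n → k) (s : Finset k) :
    ∃ v : Fin n → k, v ≠ 0 ∧ ∃ s' : Finset k, s ⊆ s' ∧ (∀ i, v i ∈ s') ∧
      (GoodT m f p v (Subfield.closure (s' : Set k))).Infinite := by
  classical
  have hρ : ∀ i, ∃ ρ : k, ρ ^ m i = eval p (f i) := fun i =>
    IsAlgClosed.exists_pow_nat_eq _ (Nat.pos_of_ne_zero (hm0 i))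
  choose ρ hρ using hρ
  refine ⟨fun _ => 1, fun h => one_ne_zero (congrFun h ⟨0, hn⟩),
    s ∪ {1} ∪ Finset.univ.image ρ, fun a ha => by simp [ha], fun i => by simp,
    (closure_infinite (s ∪ {1} ∪ Finset.univ.image ρ)).mono ?_⟩
  intro t ht
  refine ⟨ht, fun i => ⟨ρ i, Subfield.subset_closure (by simp), ?_⟩⟩
  rw [hρ, (totalDegree_eq_zero_iff_eq_C.1 (hdeg i))]
  simp

theorem euclid1 {N : ℕ} (hN : N ≠ 0) : Euclid k ![N] := by
  classical
  intro e s
  refine ⟨insert (e 0) s, Finset.subset_insert _ _, ?_⟩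
  set K := Subfield.closure ((insert (e 0) s : Finset k) : Set k) with hK
  have heK : e 0 ∈ K := Subfield.subset_closure (by simp)
  have hinj : Function.Injective fun n : ℕ => e 0 + (n : k) ^ N := by
    intro a b h
    have h1 : ((a ^ N : ℕ) : k) = ((b ^ N : ℕ) : k) := by
      push_cast
      exact add_left_cancel h
    exact Nat.pow_left_injective hN (by exact_mod_cast h1)
  refine (Set.infinite_range_of_injective hinj).mono ?_
  rintro _ ⟨a, rfl⟩
  refine ⟨K.add_mem heK (K.pow_mem (natCast_mem _ a) _), fun i => ⟨(a : k), natCast_mem _ a, ?_⟩⟩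
  fin_cases i
  simp

/-- Fano type -/
theorem good_fano {n r : ℕ} (m : Fin r → ℕ) (hm : ∀ i, 2 ≤ m i)
    (f : Fin r → MvPolynomial (Fin n) k)
    (e : Fin r → ℕ) (hdeg : ∀ i, (f i).totalDegree ≤ m i * e i)
    (he : ∑ i, (m i - 1) * e i ≤ n)
    (b : Σ i : Fin r, Fin (e i))
    (p : Fin n → k) (hp : ∀ i, eval p (f i) ≠ 0) (s : Finset k) :
    ∃ v : Fin n → k, v ≠ 0 ∧ ∃ s' : Finset k, s ⊆ s' ∧ (∀ i, v i ∈ s') ∧
      (GoodT m f p v (Subfield.closure (s' : Set k))).Infinite := by
  classical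
  have hm0 : ∀ i, m i ≠ 0 := fun i => by have := hm i; omega
  refine good_of_pattern m hm0 f e hdeg (q := 1) (by omega) ![b]
    (Sum.elim (fun j => if j = b then 1 else m j.1) ![m b.1 - 1]) ?_ ?_ ?_ p hp s
  · rintro (j | j)
    · simp only [Sum.elim_inl]
      have := hm j.1
      split_ifs <;> omega
    · fin_cases j
      have := hm b.1
      simp
      omega
  · intro j
    simp only [Sum.elim_inl, Sum.elim_inr, Fin.sum_univ_one, Matrix.cons_val_zero]
    by_cases hj : b = j
    · subst hj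
      have := hm b.1
      simp
      omega
    · have hj' : ¬ j = b := fun h => hj h.symm
      simp [hj, hj']
  · intro c s
    obtain ⟨s', hs', hinf⟩ := forms (N := ![m b.1]) (by
      intro i
      fin_cases i
      exact hm0 b.1) (euclid1 (hm0 b.1)) (c (Sum.inr 0)) ![c (Sum.inl b)]
      (s ∪ Finset.univ.image c)
    refine ⟨s', fun a ha => hs' (by simp [ha]), hinf.mono ?_⟩
    rintro t ⟨htK, ht⟩
    refine ⟨htK, fun j => ?_⟩
    set K := Subfield.closure (s' : Set k)
    have hcK : ∀ s, 1 + c s * t ∈ K := fun s =>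
      K.add_mem K.one_mem (K.mul_mem (Subfield.subset_closure (hs' (by simp))) htK)
    by_cases hj : b = j
    · subst hj
      obtain ⟨y, hyK, hy⟩ := ht 0
      simp only [Matrix.cons_val_zero] at hy
      refine ⟨(1 + c (Sum.inr 0) * t) * y, K.mul_mem (hcK _) hyK, ?_⟩
      simp only [Sum.elim_inl, Sum.elim_inr, Fin.prod_univ_one, if_true, Matrix.cons_val_zero,
        pow_one]
      rw [hy, mul_pow]
      obtain ⟨m', hm'⟩ : ∃ m', m b.1 = m' + 1 := ⟨m b.1 - 1, by have := hm0 b.1; omega⟩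
      rw [hm', Nat.add_sub_cancel, pow_succ (1 + c (Sum.inr 0) * t)]
      ring
    · have hj' : ¬ j = b := fun h => hj h.symm
      refine ⟨1 + c (Sum.inl j) * t, hcK _, ?_⟩
      simp [hj, hj']

/-- types `(3,3,3)`, `(4,4,2)` -/
theorem good_triple {n r α0 α1 α2 N0 N1 : ℕ} (m : Fin r → ℕ) (hm0 : ∀ i, m i ≠ 0)
    (f : Fin r → MvPolynomial (Fin n) k)
    (e : Fin r → ℕ) (hdeg : ∀ i, (f i).totalDegree ≤ m i * e i)
    (he : ∑ i, (m i - 1) * e i ≤ n + 1)
    (b : Σ i : Fin r, Fin (e i))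
    (hα0 : α0 ≠ 0) (hm : α0 + α1 + α2 = m b.1) (hN0 : N0 * α1 = m b.1)
    (hN1 : N1 * α2 = m b.1) (hE : Euclid k ![N0, N1])
    (p : Fin n → k) (hp : ∀ i, eval p (f i) ≠ 0) (s : Finset k) :
    ∃ v : Fin n → k, v ≠ 0 ∧ ∃ s' : Finset k, s ⊆ s' ∧ (∀ i, v i ∈ s') ∧
      (GoodT m f p v (Subfield.closure (s' : Set k))).Infinite := by
  classical
  have hb0 := hm0 b.1
  have hα1 : 0 < α1 := Nat.pos_of_ne_zero (by rintro rfl; omega)
  have hα2 : 0 < α2 := Nat.pos_of_ne_zero (by rintro rfl; omega)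
  have hN0' : N0 ≠ 0 := by rintro rfl; omega
  have hN1' : N1 ≠ 0 := by rintro rfl; omega
  refine good_of_pattern m hm0 f e hdeg (q := 2) (by omega) ![b, b]
    (Sum.elim (fun j => if j = b then α0 else m j.1) ![α1, α2]) ?_ ?_ ?_ p hp s
  · rintro (j | j)
    · simp only [Sum.elim_inl]
      have := hm0 j.1
      split_ifs <;> omega
    · fin_cases j
      · exact hα1
      · exact hα2
  · intro j
    simp only [Sum.elim_inl, Sum.elim_inr, Fin.sum_univ_two, Matrix.cons_val_zero,
      Matrix.cons_val_one]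
    by_cases hj : b = j
    · subst hj
      simp
      omega
    · have hj' : ¬ j = b := fun h => hj h.symm
      simp [hj, hj']
  · intro c s
    obtain ⟨s', hs', hinf⟩ := forms (N := ![N0, N1]) (by
      intro i
      fin_cases i
      · exact hN0'
      · exact hN1') hE (c (Sum.inl b)) ![c (Sum.inr 0), c (Sum.inr 1)]
      (s ∪ Finset.univ.image c)
    refine ⟨s', fun a ha => hs' (by simp [ha]), hinf.mono ?_⟩
    rintro t ⟨htK, ht⟩
    refine ⟨htK, fun j => ?_⟩
    set K := Subfield.closure (s' : Set k)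
    have hcK : ∀ s, 1 + c s * t ∈ K := fun s =>
      K.add_mem K.one_mem (K.mul_mem (Subfield.subset_closure (hs' (by simp))) htK)
    by_cases hj : b = j
    · subst hj
      obtain ⟨y, hyK, hy⟩ := ht 0
      obtain ⟨z, hzK, hz⟩ := ht 1
      simp only [Matrix.cons_val_zero, Matrix.cons_val_one] at hy hz
      refine ⟨(1 + c (Sum.inl b) * t) * y * z, K.mul_mem (K.mul_mem (hcK _) hyK) hzK, ?_⟩
      simp only [Sum.elim_inl, Sum.elim_inr, if_true, Matrix.cons_val_zero, Matrix.cons_val_one,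
        Fin.prod_univ_two]
      rw [hy, hz]
      have e1 : (((1 + c (Sum.inl b) * t) * y ^ N0) ^ α1 : k) =
        (1 + c (Sum.inl b) * t) ^ α1 * y ^ m b.1 := by rw [mul_pow, ← pow_mul, hN0]
      have e2 : (((1 + c (Sum.inl b) * t) * z ^ N1) ^ α2 : k) =
        (1 + c (Sum.inl b) * t) ^ α2 * z ^ m b.1 := by rw [mul_pow, ← pow_mul, hN1]
      rw [e1, e2, mul_pow, mul_pow]
      have e3 : (1 + c (Sum.inl b) * t) ^ m b.1 = (1 + c (Sum.inl b) * t) ^ α0 *
        (1 + c (Sum.inl b) * t) ^ α1 * (1 + c (Sum.inl b) * t) ^ α2 := by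
        rw [← hm, pow_add, pow_add]
      rw [e3]
      ring
    · have hj' : ¬ j = b := fun h => hj h.symm
      refine ⟨1 + c (Sum.inl j) * t, hcK _, ?_⟩
      simp [hj, hj']

/-- type `(2,2,2,2)` -/
theorem good_double {n r : ℕ} (m : Fin r → ℕ) (hm0 : ∀ i, m i ≠ 0)
    (f : Fin r → MvPolynomial (Fin n) k)
    (e : Fin r → ℕ) (hdeg : ∀ i, (f i).totalDegree ≤ m i * e i)
    (he : ∑ i, (m i - 1) * e i ≤ n + 1)
    (b0 b1 : Σ i : Fin r, Fin (e i)) (hb : b0 ≠ b1) (μ0 μ1 : ℕ) (h0 : m b0.1 = 2 * μ0)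
    (h1 : m b1.1 = 2 * μ1)
    (p : Fin n → k) (hp : ∀ i, eval p (f i) ≠ 0) (s : Finset k) :
    ∃ v : Fin n → k, v ≠ 0 ∧ ∃ s' : Finset k, s ⊆ s' ∧ (∀ i, v i ∈ s') ∧
      (GoodT m f p v (Subfield.closure (s' : Set k))).Infinite := by
  classical
  have hb0 := hm0 b0.1
  have hb1 := hm0 b1.1
  refine good_of_pattern m hm0 f e hdeg (q := 2) (by omega) ![b0, b1]
    (Sum.elim (fun j => if j = b0 then μ0 else if j = b1 then μ1 else m j.1) ![μ0, μ1])
    ?_ ?_ ?_ p hp s
  · rintro (j | j)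
    · simp only [Sum.elim_inl]
      have := hm0 j.1
      split_ifs <;> omega
    · fin_cases j
      · simp
        omega
      · simp
        omega
  · intro j
    simp only [Sum.elim_inl, Sum.elim_inr, Fin.sum_univ_two, Matrix.cons_val_zero,
      Matrix.cons_val_one]
    by_cases hj : b0 = j
    · subst hj
      simp [hb.symm, h0]
      omega
    · by_cases hj1 : b1 = j
      · subst hj1
        simp [hb, hb.symm, h1]
        omega
      · have hj' : ¬ j = b0 := fun h => hj h.symm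
        have hj1' : ¬ j = b1 := fun h => hj1 h.symm
        simp [hj, hj', hj1, hj1']
  · intro c s
    obtain ⟨s', hs', hinf⟩ := forms (N := ![2, 2, 2]) (by
      intro i
      fin_cases i <;> simp) euclid222 (c (Sum.inl b0))
      ![c (Sum.inr 0), c (Sum.inl b1), c (Sum.inr 1)] (s ∪ Finset.univ.image c)
    refine ⟨s', fun a ha => hs' (by simp [ha]), hinf.mono ?_⟩
    rintro t ⟨htK, ht⟩
    refine ⟨htK, fun j => ?_⟩
    set K := Subfield.closure (s' : Set k)
    have hcK : ∀ s, 1 + c s * t ∈ K := fun s =>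
      K.add_mem K.one_mem (K.mul_mem (Subfield.subset_closure (hs' (by simp))) htK)
    obtain ⟨y, hyK, hy⟩ := ht 0
    obtain ⟨z, hzK, hz⟩ := ht 1
    obtain ⟨w, hwK, hw⟩ := ht 2
    simp only [Matrix.cons_val_zero, Matrix.cons_val_one, Matrix.cons_val_two, Matrix.head_cons,
      Matrix.tail_cons, Matrix.cons_val] at hy hz hw
    by_cases hj : b0 = j
    · subst hj
      refine ⟨(1 + c (Sum.inl b0) * t) * y, K.mul_mem (hcK _) hyK, ?_⟩
      have hb' : ¬ b1 = b0 := hb.symm
      simp only [Sum.elim_inl, Sum.elim_inr, if_true, Matrix.cons_val_zero, Matrix.cons_val_one,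
        hb', if_false, mul_one, Fin.prod_univ_two]
      rw [hy, h0, mul_pow, mul_pow, ← pow_mul, two_mul μ0, pow_add, pow_add]
      ring
    · by_cases hj1 : b1 = j
      · subst hj1
        refine ⟨(1 + c (Sum.inl b0) * t) * z * w, K.mul_mem (K.mul_mem (hcK _) hzK) hwK, ?_⟩
        simp only [Sum.elim_inl, Sum.elim_inr, if_true, Matrix.cons_val_zero, Matrix.cons_val_one,
          hb.symm, hb, if_false, one_mul, Fin.prod_univ_two]
        rw [hz, hw, h1, mul_pow, mul_pow, mul_pow, mul_pow, ← pow_mul, ← pow_mul, two_mul μ1,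
          pow_add, pow_add, pow_add]
        ring
      · have hj' : ¬ j = b0 := fun h => hj h.symm
        have hj1' : ¬ j = b1 := fun h => hj1 h.symm
        refine ⟨1 + c (Sum.inl j) * t, hcK _, ?_⟩
        simp [hj, hj', hj1, hj1']

/-- all cases -/
theorem good_line {n r : ℕ} (hn : 1 ≤ n) (m : Fin r → ℕ) (hm : ∀ i, 2 ≤ m i)
    (f : Fin r → MvPolynomial (Fin n) k)
    (e : Fin r → ℕ) (hdeg : ∀ i, (f i).totalDegree ≤ m i * e i)
    (he : ∑ i, (m i - 1) * e i ≤ n + 1)
    (hcy : ∑ i, (m i - 1) * e i = n + 1 →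
      (∃ i, e i ≠ 0 ∧ (3 ∣ m i ∨ 4 ∣ m i)) ∨ 2 ≤ ∑ i with 2 ∣ m i, e i)
    (p : Fin n → k) (hp : ∀ i, eval p (f i) ≠ 0) (s : Finset k) :
    ∃ v : Fin n → k, v ≠ 0 ∧ ∃ s' : Finset k, s ⊆ s' ∧ (∀ i, v i ∈ s') ∧
      (GoodT m f p v (Subfield.closure (s' : Set k))).Infinite := by
  classical
  have hm0 : ∀ i, m i ≠ 0 := fun i => by have := hm i; omega
  by_cases hM : ∀ i, e i = 0
  · refine good_const hn m hm0 f (fun i => ?_) p s
    have := hdeg i
    simp_all
  · push Not at hM
    obtain ⟨i0, hi0⟩ := hM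
    by_cases hlt : ∑ i, (m i - 1) * e i ≤ n
    · exact good_fano m hm f e hdeg hlt ⟨i0, ⟨0, Nat.pos_of_ne_zero hi0⟩⟩ p hp s
    · rcases hcy (by omega) with ⟨i, hi, h3 | h4⟩ | h2
      · obtain ⟨μ, hμ⟩ := h3
        have := hm i
        exact good_triple (α0 := μ) (α1 := μ) (α2 := μ) m hm0 f e hdeg he
          ⟨i, ⟨0, Nat.pos_of_ne_zero hi⟩⟩ (by omega) (by simp only; omega)
          (N0 := 3) (N1 := 3) (by simp only; omega) (by simp only; omega) euclid33 p hp s
      · obtain ⟨μ, hμ⟩ := h4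
        have := hm i
        exact good_triple (α0 := μ) (α1 := μ) (α2 := 2 * μ) m hm0 f e hdeg he
          ⟨i, ⟨0, Nat.pos_of_ne_zero hi⟩⟩ (by omega) (by simp only; omega)
          (N0 := 4) (N1 := 2) (by simp only; omega) (by simp only; omega) euclid42 p hp s
      · -- two even slots
        have hcard : 1 < (Finset.univ.filter fun j : Σ i : Fin r, Fin (e i) => 2 ∣ m j.1).card := by
          rw [Finset.card_filter, Fintype.sum_sigma]
          rw [Finset.sum_filter] at h2
          refine lt_of_lt_of_le h2 (Finset.sum_le_sum fun i _ => ?_)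
          split_ifs <;> simp
        obtain ⟨b0, hb0, b1, hb1, hb⟩ := Finset.one_lt_card.1 hcard
        simp only [Finset.mem_filter, Finset.mem_univ, true_and] at hb0 hb1
        obtain ⟨μ0, hμ0⟩ := hb0
        obtain ⟨μ1, hμ1⟩ := hb1
        exact good_double m hm0 f e hdeg he b0 b1 hb μ0 μ1 hμ0 hμ1 p hp s

end Pool.Agent.H734R3.LV
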