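import Mathlib
import Pool.Agent.H734R3.LV.Good

/-!
# Averaging over the Galois group of a multi-cyclic cover
-/

set_option autoImplicit false

namespace Pool.Agent.H734R3.LV

open MvPolynomial

variable {k : Type*} [Field k]

theorem sum_roots {m : ℕ} {ζ : k} (hζ : IsPrimitiveRoot ζ m) (μ : ℕ) :
    ∑ l : Fin m, (ζ ^ (l : ℕ)) ^ μ = if m ∣ μ then (m : k) else 0 := by
  have h1 : ∑ l : Fin m, (ζ ^ (l : ℕ)) ^ μ = ∑ l ∈ Finset.range m, (ζ ^ μ) ^ l := by
    rw [Finset.sum_range]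
    refine Finset.sum_congr rfl fun l _ => ?_
    rw [← pow_mul, ← pow_mul, mul_comm]
  rw [h1]
  split_ifs with h
  · rw [(hζ.pow_eq_one_iff_dvd μ).2 h]
    simp
  · have h2 : ζ ^ μ ≠ 1 := fun h3 => h ((hζ.pow_eq_one_iff_dvd μ).1 h3)
    have h3 : (∑ l ∈ Finset.range m, (ζ ^ μ) ^ l) * (ζ ^ μ - 1) = (ζ ^ μ) ^ m - 1 := geom_sum_mul _ _
    have h4 : (ζ ^ μ) ^ m = 1 := by rw [← pow_mul, mul_comm, pow_mul, hζ.pow_eq_one, one_pow]
    rw [h4, sub_self] at h3
    exact (mul_eq_zero.1 h3).resolve_right (sub_ne_zero.2 h2)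

/-- the average of a polynomial over the Galois group is a polynomial on the base -/
theorem avg {n r : ℕ} (m : Fin r → ℕ) (ζ : Fin r → k) (hζ : ∀ i, IsPrimitiveRoot (ζ i) (m i))
    (f : Fin r → MvPolynomial (Fin n) k) (Q : MvPolynomial (Fin n ⊕ Fin r) k) :
    ∃ A : MvPolynomial (Fin n) k, ∀ (x : Fin n → k) (w : Fin r → k),
      (∀ i, w i ^ m i = eval x (f i)) →
      ∑ g : (i : Fin r) → Fin (m i),
        eval (Sum.elim x fun i => ζ i ^ (g i : ℕ) * w i) Q = eval x A := by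
  classical
  induction Q using MvPolynomial.induction_on' with
  | monomial μ a =>
    refine ⟨C a * (∏ j, X j ^ μ (Sum.inl j)) *
      ∏ i, (if m i ∣ μ (Sum.inr i) then C (m i : k) * f i ^ (μ (Sum.inr i) / m i) else 0), ?_⟩
    intro x w hw
    have h1 : ∀ g : (i : Fin r) → Fin (m i),
        eval (Sum.elim x fun i => ζ i ^ (g i : ℕ) * w i) (monomial μ a) =
        (a * ∏ j, x j ^ μ (Sum.inl j)) * ∏ i, (ζ i ^ (g i : ℕ) * w i) ^ μ (Sum.inr i) := by
      intro g
      rw [eval_monomial, Finsupp.prod_fintype _ _ (fun _ => pow_zero _), Fintype.prod_sum_type,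
        mul_assoc]
      rfl
    rw [Finset.sum_congr rfl fun g _ => h1 g, ← Finset.mul_sum]
    have h2 : ∑ g : (i : Fin r) → Fin (m i), ∏ i, (ζ i ^ (g i : ℕ) * w i) ^ μ (Sum.inr i) =
        ∏ i, ∑ l : Fin (m i), (ζ i ^ (l : ℕ) * w i) ^ μ (Sum.inr i) := by
      rw [Finset.prod_univ_sum, Fintype.piFinset_univ]
    rw [h2, eval_mul, eval_mul, eval_C, eval_prod, eval_prod]
    congr 1
    · simp
    · refine Finset.prod_congr rfl fun i _ => ?_
      have h3 : ∀ l : Fin (m i), (ζ i ^ (l : ℕ) * w i) ^ μ (Sum.inr i) =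
          (ζ i ^ (l : ℕ)) ^ μ (Sum.inr i) * w i ^ μ (Sum.inr i) := fun l => mul_pow _ _ _
      rw [Finset.sum_congr rfl fun l _ => h3 l, ← Finset.sum_mul, sum_roots (hζ i)]
      split_ifs with h
      · rw [eval_mul, eval_C, eval_pow, ← hw i, ← pow_mul, Nat.mul_div_cancel' h]
      · simp
  | add P Q hP hQ =>
    obtain ⟨A, hA⟩ := hP
    obtain ⟨B, hB⟩ := hQ
    refine ⟨A + B, fun x w hw => ?_⟩
    rw [eval_add, ← hA x w hw, ← hB x w hw, ← Finset.sum_add_distrib]
    exact Finset.sum_congr rfl fun g _ => eval_add ..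

/-- a polynomial which does not vanish at a point `(p, w0)` of the cover gives a polynomial on the
base, not vanishing at `p`, such that over each of its nonzeros some point of the cover is a
nonzero of the given polynomial -/
theorem exists_norm {n r : ℕ} [CharZero k] (m : Fin r → ℕ) (hm0 : ∀ i, m i ≠ 0) (ζ : Fin r → k)
    (hζ : ∀ i, IsPrimitiveRoot (ζ i) (m i))
    (f : Fin r → MvPolynomial (Fin n) k) (Q : MvPolynomial (Fin n ⊕ Fin r) k) (p : Fin n → k)
    (w0 : Fin r → k) (hw0 : ∀ i, w0 i ≠ 0) (hw : ∀ i, w0 i ^ m i = eval p (f i))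
    (hQ : eval (Sum.elim p w0) Q ≠ 0) :
    ∃ A : MvPolynomial (Fin n) k, eval p A ≠ 0 ∧ ∀ (x : Fin n → k) (w : Fin r → k),
      (∀ i, w i ^ m i = eval x (f i)) → eval x A ≠ 0 →
      ∃ g : (i : Fin r) → Fin (m i), eval (Sum.elim x fun i => ζ i ^ (g i : ℕ) * w i) Q ≠ 0 := by
  classical
  let B : MvPolynomial (Fin n ⊕ Fin r) k :=
    ∏ i : Fin r, ∑ b : Fin (m i), (C (w0 i)⁻¹ * X (Sum.inr i)) ^ (b : ℕ)
  obtain ⟨A, hA⟩ := avg m ζ hζ f (Q * B)
  refine ⟨A, ?_, ?_⟩
  · rw [← hA p w0 hw]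
    have hB : ∀ g : (i : Fin r) → Fin (m i),
        eval (Sum.elim p fun i => ζ i ^ (g i : ℕ) * w0 i) B =
        ∏ i, ∑ b : Fin (m i), (ζ i ^ (b : ℕ)) ^ (g i : ℕ) := by
      intro g
      simp only [B]
      rw [eval_prod]
      refine Finset.prod_congr rfl fun i _ => ?_
      rw [eval_sum]
      refine Finset.sum_congr rfl fun b _ => ?_
      rw [eval_pow, eval_mul, eval_C, eval_X]
      simp only [Sum.elim_inr]
      rw [← pow_mul, mul_comm (b : ℕ), pow_mul]
      congr 1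
      have := hw0 i
      field_simp
    let g0 : (i : Fin r) → Fin (m i) := fun i => ⟨0, Nat.pos_of_ne_zero (hm0 i)⟩
    rw [Finset.sum_eq_single g0]
    · rw [eval_mul, hB]
      apply mul_ne_zero
      · simpa [g0] using hQ
      · simp only [g0]
        rw [Finset.prod_ne_zero_iff]
        intro i _
        simp [hm0 i]
    · intro g _ hg
      obtain ⟨i, hi⟩ : ∃ i, (g i : ℕ) ≠ 0 := by
        by_contra h
        push Not at h
        exact hg (funext fun i => Fin.ext (h i))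
      rw [eval_mul, hB, Finset.prod_eq_zero (Finset.mem_univ i), mul_zero]
      rw [sum_roots (hζ i), if_neg]
      intro h
      have := Nat.le_of_dvd (Nat.pos_of_ne_zero hi) h
      have := (g i).2
      omega
    · intro h
      exact absurd (Finset.mem_univ _) h
  · intro x w hxw hAx
    rw [← hA x w hxw] at hAx
    obtain ⟨g, -, hg⟩ := Finset.exists_ne_zero_of_sum_ne_zero hAx
    rw [eval_mul] at hg
    exact ⟨g, left_ne_zero_of_mul hg⟩

theorem eval_mem {σ : Type*} (K : Subfield k) (F : MvPolynomial σ k) (hF : ∀ μ ∈ F.support, coeff μ F ∈ K)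
    (z : σ → k) (hz : ∀ i, z i ∈ K) : eval z F ∈ K := by
  rw [eval_eq]
  exact Subfield.sum_mem _ fun μ hμ => K.mul_mem (hF μ hμ)
    (Subfield.prod_mem _ fun i _ => K.pow_mem (hz i) _)

end Pool.Agent.H734R3.LV
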