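import Mathlib
import Pool.Agent.H734R3.LV.Avg

/-!
# Multi-cyclic covers of Calabi-Yau or Fano type are not pseudo-Mordellic
-/

set_option autoImplicit false

namespace Pool.Agent.H734R3.LV

open MvPolynomial

/-- projective `N`-space over `k` -/
abbrev PP (k : Type*) [Field k] (N : ℕ) : Type _ := Projectivization k (Fin (N + 1) → k)

variable {k : Type*} [Field k] {N : ℕ}

/-- the point `P` is rational over the subfield `K`: it has homogeneous coordinates in `K` -/
def RatPt (K : Subfield k) (P : PP k N) : Prop :=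
  ∃ (z : Fin (N + 1) → k) (hz : z ≠ 0), (∀ j, z j ∈ K) ∧ Projectivization.mk k z hz = P

/-- Zariski closed subsets of projective space: common zeros of homogeneous polynomials -/
def IsZClosed (A : Set (PP k N)) : Prop :=
  ∃ S : Set (MvPolynomial (Fin (N + 1)) k), (∀ G ∈ S, ∃ d, G.IsHomogeneous d) ∧
    ∀ P : PP k N, P ∈ A ↔ ∀ G ∈ S, eval P.rep G = 0

/-- some Zariski closed subset `Δ` not containing `X` contains all but finitely many of the points
of `X` rational over `K`, for every finitely generated subfield `K` of `k` -/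
def PseudoMordellic (X : Set (PP k N)) : Prop :=
  ∃ Δ : Set (PP k N), IsZClosed Δ ∧ ¬ X ⊆ Δ ∧
    ∀ s : Finset k, {P | P ∈ X ∧ P ∉ Δ ∧ RatPt (Subfield.closure (s : Set k)) P}.Finite

/-- the unramified part `{(x, w) : w_i ^ m_i = f_i(x) ≠ 0}` of the multi-cyclic cover of affine
`n`-space defined by `f_1, ..., f_r` -/
def Cov {n r : ℕ} (m : Fin r → ℕ) (f : Fin r → MvPolynomial (Fin n) k) :
    Set (Fin n ⊕ Fin r → k) :=
  {z | ∀ i, z (Sum.inr i) ≠ 0 ∧ z (Sum.inr i) ^ m i = eval (fun j => z (Sum.inl j)) (f i)}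

/-- the vector `(Φ_0(z), ..., Φ_N(z))` -/
noncomputable def vec {ι : Type*} (Φ : Fin (N + 1) → MvPolynomial ι k) (z : ι → k) : Fin (N + 1) → k :=
  fun j => eval z (Φ j)

/-- `(Φ_0 : ... : Φ_N)` is a generically finite dominant rational map from the cover to `X`,
defined and with finite fibres on the Zariski open subset `D ≠ 0`, where its image is Zariski
dense in `X` -/
structure GenFinDom {n r : ℕ} (m : Fin r → ℕ) (f : Fin r → MvPolynomial (Fin n) k) (X : Set (PP k N))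
    (Φ : Fin (N + 1) → MvPolynomial (Fin n ⊕ Fin r) k) (D : MvPolynomial (Fin n ⊕ Fin r) k) :
    Prop where
  maps : ∀ z ∈ Cov m f, eval z D ≠ 0 → ∃ h : vec Φ z ≠ 0, Projectivization.mk k (vec Φ z) h ∈ X
  fin : ∀ P : PP k N, {z | z ∈ Cov m f ∧ eval z D ≠ 0 ∧
    ∃ h : vec Φ z ≠ 0, Projectivization.mk k (vec Φ z) h = P}.Finite
  dense : ∀ Δ : Set (PP k N), IsZClosed Δ →
    (∀ z ∈ Cov m f, eval z D ≠ 0 → ∀ h : vec Φ z ≠ 0, Projectivization.mk k (vec Φ z) h ∈ Δ) →
    X ⊆ Δ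

theorem eval_smul_homog {σ : Type*} {G : MvPolynomial σ k} {d : ℕ} (hG : G.IsHomogeneous d)
    (s : k) (p : σ → k) : eval (fun i => s * p i) G = s ^ d * eval p G := by
  rw [eval_eq, eval_eq, Finset.mul_sum]
  refine Finset.sum_congr rfl fun m hm => ?_
  have hd : ∑ i ∈ m.support, m i = d := by
    have := hG (mem_support_iff.1 hm)
    rw [Finsupp.weight_apply, Finsupp.sum] at this
    simpa using this
  simp_rw [mul_pow]
  rw [Finset.prod_mul_distrib, Finset.prod_pow_eq_pow_sum, hd]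
  ring

theorem van_mk {G : MvPolynomial (Fin (N + 1)) k} {d : ℕ} (hG : G.IsHomogeneous d)
    (z : Fin (N + 1) → k) (hz : z ≠ 0) :
    eval (Projectivization.mk k z hz).rep G = 0 ↔ eval z G = 0 := by
  obtain ⟨a, ha⟩ := Projectivization.exists_smul_eq_mk_rep k z hz
  have h1 : (Projectivization.mk k z hz).rep = fun i => (a : k) * z i := by
    rw [← ha]
    rfl
  rw [h1, eval_smul_homog hG]
  simp

variable [IsAlgClosed k] [CharZero k]

theorem main {n r : ℕ} (hn : 1 ≤ n) (m : Fin r → ℕ) (hm : ∀ i, 2 ≤ m i)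
    (f : Fin r → MvPolynomial (Fin n) k) (e : Fin r → ℕ)
    (hdeg : ∀ i, (f i).totalDegree ≤ m i * e i) (he : ∑ i, (m i - 1) * e i ≤ n + 1)
    (hcy : ∑ i, (m i - 1) * e i = n + 1 →
      (∃ i, e i ≠ 0 ∧ (3 ∣ m i ∨ 4 ∣ m i)) ∨ 2 ≤ ∑ i with 2 ∣ m i, e i)
    (X : Set (PP k N)) (Φ : Fin (N + 1) → MvPolynomial (Fin n ⊕ Fin r) k)
    (D : MvPolynomial (Fin n ⊕ Fin r) k) (hΦ : GenFinDom m f X Φ D) : ¬ PseudoMordellic X := by
  classical
  have hm0 : ∀ i, m i ≠ 0 := fun i => by have := hm i; omega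
  have hζ : ∀ i, ∃ ζ : k, IsPrimitiveRoot ζ (m i) := by
    intro i
    have : NeZero (m i) := ⟨hm0 i⟩
    have : NeZero (m i : k) := ⟨by exact_mod_cast hm0 i⟩
    exact HasEnoughRootsOfUnity.exists_primitiveRoot k (m i)
  choose ζ hζ using hζ
  rintro ⟨Δ, hΔ, hXΔ, hfin⟩
  -- a point of the cover mapping outside `Δ`
  obtain ⟨z0, hz0, hD0, h0, hΔ0⟩ : ∃ z ∈ Cov m f, eval z D ≠ 0 ∧ ∃ h : vec Φ z ≠ 0,
      Projectivization.mk k (vec Φ z) h ∉ Δ := by
    by_contra hcon
    push Not at hcon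
    exact hXΔ (hΦ.dense Δ hΔ fun z hz hD h => hcon z hz hD h)
  obtain ⟨S, hS, hΔS⟩ := hΔ
  obtain ⟨G, hGS, hG0⟩ : ∃ G ∈ S, eval (Projectivization.mk k (vec Φ z0) h0).rep G ≠ 0 := by
    by_contra hcon
    push Not at hcon
    exact hΔ0 ((hΔS _).2 hcon)
  obtain ⟨d, hGd⟩ := hS G hGS
  have hG0' : eval (vec Φ z0) G ≠ 0 := fun h => hG0 ((van_mk hGd _ h0).2 h)
  let Q : MvPolynomial (Fin n ⊕ Fin r) k := D * bind₁ Φ G
  have hQe : ∀ z, eval z Q = eval z D * eval (vec Φ z) G := by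
    intro z
    simp only [Q, eval_mul]
    congr 1
    exact eval₂Hom_bind₁ _ _ _ _
  set p : Fin n → k := fun j => z0 (Sum.inl j) with hp
  set w0 : Fin r → k := fun i => z0 (Sum.inr i) with hw0
  have hz0e : Sum.elim p w0 = z0 := by
    funext a
    rcases a with a | a <;> rfl
  obtain ⟨A, hA0, hA⟩ := exists_norm m hm0 ζ hζ f Q p w0 (fun i => (hz0 i).1) (fun i => (hz0 i).2)
    (by rw [hz0e, hQe]; exact mul_ne_zero hD0 hG0')
  have hfp : ∀ i, eval p (f i) ≠ 0 := fun i => by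
    rw [← (hz0 i).2]
    exact pow_ne_zero _ (hz0 i).1
  obtain ⟨v, hv, s, hs, hvs, hinf⟩ := good_line hn m hm f e hdeg he hcy p hfp
    (Finset.univ.image p ∪ Finset.univ.image ζ ∪ Finset.univ.biUnion fun j => (Φ j).support.image (coeff · (Φ j)))
  set K := Subfield.closure (s : Set k) with hK
  have hpK : ∀ j, p j ∈ K := fun j => Subfield.subset_closure (hs (by simp))
  have hvK : ∀ j, v j ∈ K := fun j => Subfield.subset_closure (hvs j)
  have hζK : ∀ i, ζ i ∈ K := fun i => Subfield.subset_closure (hs (by simp))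
  have hΦK : ∀ j, ∀ μ ∈ (Φ j).support, coeff μ (Φ j) ∈ K := fun j μ hμ =>
    Subfield.subset_closure (hs (by
      apply Finset.mem_union_right
      exact Finset.mem_biUnion.2 ⟨j, Finset.mem_univ _, Finset.mem_image.2 ⟨μ, hμ, rfl⟩⟩))
  -- remove finitely many parameters
  have hroots : ∀ F : MvPolynomial (Fin n) k, eval p F ≠ 0 →
      {t : k | eval (fun j => p j + t * v j) F = 0}.Finite := by
    intro F hF
    have hne : restr F p v ≠ 0 := by
      intro h
      apply hF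
      have := restr_eval F p v 0
      rw [h, Polynomial.eval_zero] at this
      simpa using this.symm
    refine ((restr F p v).roots.toFinset.finite_toSet).subset ?_
    intro t ht
    simp only [Finset.mem_coe, Multiset.mem_toFinset]
    rw [Polynomial.mem_roots hne, Polynomial.IsRoot, restr_eval]
    exact ht
  set T : Set k := {t | t ∈ GoodT m f p v K ∧ eval (fun j => p j + t * v j) A ≠ 0 ∧
    ∀ i, eval (fun j => p j + t * v j) (f i) ≠ 0} with hT
  have hTinf : T.Infinite := by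
    have h1 : (GoodT m f p v K \ ({t : k | eval (fun j => p j + t * v j) A = 0} ∪
        ⋃ i, {t : k | eval (fun j => p j + t * v j) (f i) = 0})).Infinite :=
      hinf.sdiff ((hroots A hA0).union (Set.finite_iUnion fun i => hroots _ (hfp i)))
    refine h1.mono ?_
    rintro t ⟨ht, h2⟩
    simp only [Set.mem_union, Set.mem_iUnion, not_or, not_exists, Set.mem_ofPred_eq] at h2
    exact ⟨ht, h2.1, h2.2⟩
  have key : ∀ t ∈ T, ∃ z : Fin n ⊕ Fin r → k, (∀ j, z (Sum.inl j) = p j + t * v j) ∧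
      (∀ a, z a ∈ K) ∧ z ∈ Cov m f ∧ eval z Q ≠ 0 := by
    rintro t ⟨⟨htK, ht⟩, htA, htf⟩
    choose y hyK hy using ht
    obtain ⟨g, hg⟩ := hA _ y hy htA
    refine ⟨_, fun j => rfl, ?_, ?_, hg⟩
    · rintro (j | i)
      · exact K.add_mem (hpK j) (K.mul_mem htK (hvK j))
      · exact K.mul_mem (K.pow_mem (hζK i) _) (hyK i)
    · intro i
      have hyi : y i ≠ 0 := by
        intro h
        apply htf i
        rw [← hy i, h, zero_pow (hm0 i)]
      refine ⟨mul_ne_zero (pow_ne_zero _ ((hζ i).ne_zero (hm0 i))) hyi, ?_⟩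
      simp only [Sum.elim_inr, Sum.elim_inl]
      have h1 : (ζ i ^ (g i : ℕ)) ^ m i = 1 := by
        rw [← pow_mul, mul_comm (g i : ℕ), pow_mul, (hζ i).pow_eq_one, one_pow]
      rw [mul_pow, hy i, h1, one_mul]
  choose! Z hZ1 hZ2 hZ3 hZ4 using key
  have hZD : ∀ t ∈ T, eval (Z t) D ≠ 0 := fun t ht => by
    have := hZ4 t ht
    rw [hQe] at this
    exact left_ne_zero_of_mul this
  have hZG : ∀ t ∈ T, eval (vec Φ (Z t)) G ≠ 0 := fun t ht => by
    have := hZ4 t ht
    rw [hQe] at this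
    exact right_ne_zero_of_mul this
  have hmk : ∀ t ∈ T, ∃ P : PP k N, ∃ h : vec Φ (Z t) ≠ 0,
      Projectivization.mk k (vec Φ (Z t)) h = P ∧ P ∈ X := fun t ht => by
    obtain ⟨h, hX⟩ := hΦ.maps (Z t) (hZ3 t ht) (hZD t ht)
    exact ⟨_, h, rfl, hX⟩
  haveI : Nonempty (PP k N) := ⟨Projectivization.mk k (vec Φ z0) h0⟩
  choose! P hPv hPmk hPX using hmk
  have himage : (P '' T).Finite := by
    refine (hfin s).subset ?_
    rintro _ ⟨t, ht, rfl⟩
    refine ⟨hPX t ht, ?_, vec Φ (Z t), hPv t ht, fun j => ?_, hPmk t ht⟩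
    · intro h
      apply hZG t ht
      rw [← hPmk t ht] at h
      exact (van_mk hGd _ _).1 ((hΔS _).1 h G hGS)
    · exact eval_mem K (Φ j) (hΦK j) _ (hZ2 t ht)
  refine hTinf (Set.Finite.of_finite_fibers P himage fun R _ => ?_)
  have hfib := hΦ.fin R
  obtain ⟨j0, hj0⟩ : ∃ j, v j ≠ 0 := by
    by_contra h
    push Not at h
    exact hv (funext h)
  have hinj : Set.InjOn Z (T ∩ P ⁻¹' {R}) := by
    rintro t ⟨ht, -⟩ u ⟨hu, -⟩ h
    have h1 := hZ1 t ht j0
    rw [h, hZ1 u hu j0] at h1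
    have h2 : (t - u) * v j0 = 0 := by linear_combination -h1
    exact sub_eq_zero.1 ((mul_eq_zero.1 h2).resolve_right hj0)
  refine Set.Finite.of_finite_image (hfib.subset ?_) hinj
  rintro _ ⟨t, ⟨ht, htR⟩, rfl⟩
  exact ⟨hZ3 t ht, hZD t ht, hPv t ht, (hPmk t ht).trans htR⟩

end Pool.Agent.H734R3.LV
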